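import Pool.Agent.H95.Gol.Basic
import Pool.Agent.H41.SF.Mertens

/-! # Mertens' second theorem in one block (helper66, module M1 of helper95's Golomb theorem) -/

namespace Pool.Agent.H66.Gol

open Finset Pool.Agent.H95.Gol

/-- Abel summation bound -/
theorem abel_le {c g : ℕ → ℝ} {B : ℕ} {M : ℝ} (hM : 0 ≤ M)
    (hc : ∀ N, B ≤ N → |∑ n ∈ Ioc B N, c n| ≤ M) (hg : ∀ n, B < n → 0 ≤ g n)
    (hanti : ∀ n, B < n → g (n + 1) ≤ g n) (N : ℕ) (hN : B ≤ N) :
    |∑ n ∈ Ioc B N, c n * g n| ≤ M * g (B + 1) := by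
  have key : ∀ k : ℕ, |∑ n ∈ Ioc B (B + k), c n * g n - (∑ n ∈ Ioc B (B + k), c n) * g (B + k + 1)| ≤
      M * (g (B + 1) - g (B + k + 1)) := by
    intro k
    induction k with
    | zero => simp
    | succ k ih =>
      have e1 : ∀ f : ℕ → ℝ, ∑ n ∈ Ioc B (B + (k + 1)), f n =
          ∑ n ∈ Ioc B (B + k), f n + f (B + k + 1) := by
        intro f
        rw [← add_assoc, Finset.sum_Ioc_succ_top (by omega)]
      have hA := hc (B + (k + 1)) (by omega)
      rw [e1 (fun n => c n * g n)]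
      set A := ∑ n ∈ Ioc B (B + k), c n with hAdef
      set A' := ∑ n ∈ Ioc B (B + (k + 1)), c n with hA'
      have e2 : A' = A + c (B + k + 1) := e1 _
      have e3 : ∑ n ∈ Ioc B (B + k), c n * g n + c (B + k + 1) * g (B + k + 1) -
          A' * g (B + (k + 1) + 1) =
          (∑ n ∈ Ioc B (B + k), c n * g n - A * g (B + k + 1)) +
          A' * (g (B + k + 1) - g (B + (k + 1) + 1)) := by
        rw [e2]; ring
      rw [e3]
      have hdec : 0 ≤ g (B + k + 1) - g (B + (k + 1) + 1) := by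
        rw [sub_nonneg]
        exact hanti (B + k + 1) (by omega)
      calc _ ≤ |∑ n ∈ Ioc B (B + k), c n * g n - A * g (B + k + 1)| +
          |A' * (g (B + k + 1) - g (B + (k + 1) + 1))| := abs_add_le _ _
        _ ≤ M * (g (B + 1) - g (B + k + 1)) +
          M * (g (B + k + 1) - g (B + (k + 1) + 1)) := by
            gcongr
            rw [abs_mul, abs_of_nonneg hdec]
            gcongr
        _ = _ := by ring
  obtain ⟨k, rfl⟩ : ∃ k, N = B + k := ⟨N - B, by omega⟩
  have h1 := key k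
  have h2 := hc (B + k) (by omega)
  have hg0 := hg (B + k + 1) (by omega)
  have e : ∑ n ∈ Ioc B (B + k), c n * g n = (∑ n ∈ Ioc B (B + k), c n * g n -
    (∑ n ∈ Ioc B (B + k), c n) * g (B + k + 1)) +
    (∑ n ∈ Ioc B (B + k), c n) * g (B + k + 1) := by ring
  rw [e]
  calc _ ≤ _ := abs_add_le _ _
    _ ≤ M * (g (B + 1) - g (B + k + 1)) + M * g (B + k + 1) := by
        apply add_le_add h1
        rw [abs_mul, abs_of_nonneg hg0]
        gcongr
    _ = _ := by ring

/-- the main term -/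
theorem loglog_sum (B : ℕ) (hB : 2 ≤ B) (N : ℕ) (hN : B ≤ N) :
    |∑ n ∈ Ioc B N, (Real.log n - Real.log (n - 1 : ℕ)) * (Real.log n)⁻¹ -
      (Real.log (Real.log N) - Real.log (Real.log B))| ≤ (Real.log B)⁻¹ - (Real.log N)⁻¹ := by
  obtain ⟨k, rfl⟩ : ∃ k, N = B + k := ⟨N - B, by omega⟩
  induction k with
  | zero => simp
  | succ k ih =>
    rw [← add_assoc, Finset.sum_Ioc_succ_top (by omega)]
    have hx : (2 : ℝ) ≤ ((B + k : ℕ) : ℝ) := by exact_mod_cast (by omega : 2 ≤ B + k)
    set y := Real.log ((B + k : ℕ) : ℝ) with hy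
    set x := Real.log ((B + k + 1 : ℕ) : ℝ) with hxd
    have hy0 : 0 < y := Real.log_pos (by linarith)
    have hyx : y < x := Real.log_lt_log (by linarith) (by push_cast; linarith)
    have hx0 : 0 < x := hy0.trans hyx
    have hd : x - y ≤ 1 := by
      rw [hxd, hy, ← Real.log_div (by positivity) (by positivity)]
      have h1 := Real.log_le_sub_one_of_pos (x := ((B + k + 1 : ℕ) : ℝ) / ((B + k : ℕ) : ℝ)) (by positivity)
      have h2 : ((B + k + 1 : ℕ) : ℝ) / ((B + k : ℕ) : ℝ) - 1 = 1 / ((B + k : ℕ) : ℝ) := by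
        push_cast
        field_simp
        ring
      have h3 : 1 / ((B + k : ℕ) : ℝ) ≤ 1 := by
        rw [div_le_one (by positivity)]; linarith
      linarith
    have e : (B + k + 1 - 1 : ℕ) = B + k := by omega
    rw [e]
    have hll : Real.log x - Real.log y ≤ (x - y) * y⁻¹ := by
      rw [← Real.log_div hx0.ne' hy0.ne']
      have h1 := Real.log_le_sub_one_of_pos (x := x / y) (by positivity)
      have h2 : x / y - 1 = (x - y) * y⁻¹ := by field_simp
      linarith
    have hll2 : (x - y) * x⁻¹ ≤ Real.log x - Real.log y := by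
      rw [← Real.log_div hx0.ne' hy0.ne']
      have h1 := Real.one_sub_inv_le_log_of_pos (x := x / y) (by positivity)
      have h2 : 1 - (x / y)⁻¹ = (x - y) * x⁻¹ := by field_simp
      linarith
    have h3 : (x - y) * y⁻¹ - (x - y) * x⁻¹ ≤ y⁻¹ - x⁻¹ := by
      have h4 : 0 ≤ y⁻¹ - x⁻¹ := by
        rw [sub_nonneg]
        exact inv_anti₀ hy0 hyx.le
      nlinarith
    have ih' := ih (by omega)
    have e2 : ∑ n ∈ Ioc B (B + k), (Real.log n - Real.log (n - 1 : ℕ)) * (Real.log n)⁻¹ +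
        (x - y) * x⁻¹ - (Real.log x - Real.log (Real.log B)) =
        (∑ n ∈ Ioc B (B + k), (Real.log n - Real.log (n - 1 : ℕ)) * (Real.log n)⁻¹ -
          (Real.log y - Real.log (Real.log B))) - ((Real.log x - Real.log y) - (x - y) * x⁻¹) := by ring
    rw [e2]
    calc _ ≤ _ := abs_sub _ _
      _ ≤ ((Real.log B)⁻¹ - y⁻¹) + (y⁻¹ - x⁻¹) := by
          apply add_le_add ih'
          rw [abs_of_nonneg (by linarith)]
          linarith
      _ = _ := by ring

/-- M1 (`Blk.lean`): Mertens in one block. -/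
theorem blk : ∃ C : ℝ, 0 < C ∧ ∀ k : ℕ, |∑ l ∈ PB k, (1:ℝ) / l - Real.log 2| ≤ C / 2 ^ k := by
  obtain ⟨C, hC0, hC⟩ := Pool.Agent.H41.SF.mertens_AP (q := 1) (a := 0) (by
    rw [isUnit_iff_eq_one]; rfl)
  refine ⟨(2 * C + 1) / Real.log 2, by have := Real.log_pos one_lt_two; positivity, fun k => ?_⟩
  set B := bb k with hB
  set B2 := bb (k + 1) with hB2
  have hB1 : 2 ≤ B := two_le_bb k
  have hBB : B ≤ B2 := bb_mono (Nat.le_succ k)
  set a : ℕ → ℝ := fun n => if n.Prime then Real.log n / n else 0 with ha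
  have hA : ∀ N : ℕ, 1 ≤ N → |∑ n ∈ Ioc 0 N, a n - Real.log N| ≤ C := by
    intro N hN
    have h := hC N hN
    rw [Nat.totient_one, Nat.cast_one, div_one, Finset.sum_filter] at h
    have e : ∀ n ∈ Ioc 0 N, (if n.Prime ∧ ((n : ℕ) : ZMod 1) = 0 then Real.log n / n else 0) = a n := by
      intro n _
      simp only [ha]
      congr 1
      simp [Subsingleton.elim ((n : ℕ) : ZMod 1) 0]
    rwa [Finset.sum_congr rfl e] at h
  set δ : ℕ → ℝ := fun n => Real.log n - Real.log (n - 1 : ℕ) with hδ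
  have hδsum : ∀ N, B ≤ N → ∑ n ∈ Ioc B N, δ n = Real.log N - Real.log B := by
    intro N hN
    obtain ⟨j, rfl⟩ : ∃ j, N = B + j := ⟨N - B, by omega⟩
    induction j with
    | zero => simp
    | succ j ih =>
      rw [← add_assoc, Finset.sum_Ioc_succ_top (by omega), ih (by omega)]
      simp only [hδ]
      have e : (B + j + 1 - 1 : ℕ) = B + j := by omega
      rw [e]; ring
  have hcsum : ∀ N, B ≤ N → |∑ n ∈ Ioc B N, (a n - δ n)| ≤ 2 * C := by
    intro N hN
    rw [Finset.sum_sub_distrib, hδsum N hN]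
    have e : ∑ n ∈ Ioc 0 N, a n = ∑ n ∈ Ioc 0 B, a n + ∑ n ∈ Ioc B N, a n := by
      rw [← Finset.sum_union]
      · congr 1
        ext n; simp only [mem_union, mem_Ioc]; omega
      · rw [Finset.disjoint_left]
        intro n hn hn'
        simp only [mem_Ioc] at hn hn'
        omega
    have h1 := hA N (by omega)
    have h2 := hA B (by omega)
    have e3 : ∑ n ∈ Ioc B N, a n - (Real.log N - Real.log B) =
        (∑ n ∈ Ioc 0 N, a n - Real.log N) - (∑ n ∈ Ioc 0 B, a n - Real.log B) := by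
      rw [e]; ring
    rw [e3]
    refine (abs_sub _ _).trans ?_
    linarith
  have hlogpos : ∀ n : ℕ, B < n → 0 < Real.log n := by
    intro n hn
    apply Real.log_pos
    exact_mod_cast (by omega : 1 < n)
  have h1 := abel_le (c := fun n => a n - δ n) (g := fun n => (Real.log n)⁻¹) (B := B)
    (M := 2 * C) (by positivity) hcsum (fun n hn => (inv_pos.2 (hlogpos n hn)).le)
    (fun n hn => inv_anti₀ (hlogpos n hn) (Real.log_le_log (by
      exact_mod_cast (by omega : 0 < n)) (by push_cast; linarith))) B2 hBB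
  have h2 := loglog_sum B hB1 B2 hBB
  have hB0 : (0 : ℝ) < Real.log B := Real.log_pos (by exact_mod_cast (by omega : 1 < B))
  have hB20 : (0 : ℝ) < Real.log B2 := Real.log_pos (by exact_mod_cast (by omega : 1 < B2))
  have e1 : ∑ l ∈ PB k, (1:ℝ) / l = ∑ n ∈ Ioc B B2, a n * (Real.log n)⁻¹ := by
    unfold PB
    rw [Finset.sum_filter]
    apply Finset.sum_congr rfl
    intro n hn
    have hn' := hlogpos n (mem_Ioc.1 hn).1
    simp only [ha]
    split_ifs
    · field_simp
    · simp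
  have e2 : Real.log (Real.log B2) - Real.log (Real.log B) = Real.log 2 := by
    rw [← Real.log_div hB20.ne' hB0.ne', hB, hB2, log_bb, log_bb]
    congr 1
    have := (Real.log_pos one_lt_two).ne'
    rw [pow_succ]
    field_simp
  have e3 : ∑ n ∈ Ioc B B2, a n * (Real.log n)⁻¹ =
      ∑ n ∈ Ioc B B2, (a n - δ n) * (Real.log n)⁻¹ + ∑ n ∈ Ioc B B2, δ n * (Real.log n)⁻¹ := by
    rw [← Finset.sum_add_distrib]
    apply Finset.sum_congr rfl
    intro n _
    ring
  rw [e2] at h2
  rw [e1, e3, add_sub_assoc]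
  have h3 : (Real.log ((B + 1 : ℕ) : ℝ))⁻¹ ≤ (Real.log B)⁻¹ :=
    inv_anti₀ hB0 (Real.log_le_log (by exact_mod_cast (by omega : 0 < B)) (by push_cast; linarith))
  have h4 : Real.log B = 2 ^ k * Real.log 2 := log_bb k
  calc _ ≤ _ := abs_add_le _ _
    _ ≤ 2 * C * (Real.log ((B + 1 : ℕ) : ℝ))⁻¹ + ((Real.log B)⁻¹ - (Real.log B2)⁻¹) :=
        add_le_add h1 h2
    _ ≤ 2 * C * (Real.log B)⁻¹ + (Real.log B)⁻¹ := by
        have : 0 ≤ (Real.log B2)⁻¹ := by positivity
        gcongr
        linarith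
    _ = (2 * C + 1) / Real.log 2 / 2 ^ k := by
        rw [h4]
        have := (Real.log_pos one_lt_two).ne'
        field_simp

end Pool.Agent.H66.Gol
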