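import Pool.Agent.H95.Gol.Basic
import Pool.Agent.H12.NonSquare

/-! # Sums of the quadratic characters `F D` (helper66, module M4ab of helper95's Golomb theorem) -/

namespace Pool.Agent.H66.Gol

open Finset Pool.Agent.H95.Gol NumberTheorySymbols

theorem F_mul (D : ℤ) (m n : ℕ) : F D (m * n) = F D m * F D n := by
  unfold F
  by_cases hm : Odd m
  · by_cases hn : Odd n
    · rw [if_pos (Nat.odd_mul.2 ⟨hm, hn⟩), if_pos hm, if_pos hn]
      have hm0 : m ≠ 0 := by rintro rfl; simp at hm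
      have hn0 : n ≠ 0 := by rintro rfl; simp at hn
      rw [jacobiSym.mul_right' D hm0 hn0]
      push_cast
      ring
    · rw [if_neg (fun h => hn (Nat.odd_mul.1 h).2), if_neg hn, mul_zero]
  · rw [if_neg (fun h => hm (Nat.odd_mul.1 h).1), if_neg hm, zero_mul]

theorem F_values (D : ℤ) (n : ℕ) : F D n = -1 ∨ F D n = 0 ∨ F D n = 1 := by
  unfold F
  split_ifs
  · rcases jacobiSym.trichotomy D n with h | h | h <;> rw [h] <;> simp
  · simp

theorem abs_F_le (D : ℤ) (n : ℕ) : |F D n| ≤ 1 := by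
  rcases F_values D n with h | h | h <;> rw [h] <;> simp

/-- the period -/
def per (D : ℤ) : ℕ := 4 * D.natAbs

theorem F_mod (D : ℤ) (n : ℕ) : F D (n % per D) = F D n := by
  unfold F per
  have h1 : Odd (n % (4 * D.natAbs)) ↔ Odd n := by
    rw [Nat.odd_iff, Nat.odd_iff, Nat.mod_mod_of_dvd n ⟨2 * D.natAbs, by ring⟩]
  by_cases hn : Odd n
  · rw [if_pos (h1.2 hn), if_pos hn, ← jacobiSym.mod_right D hn]
  · rw [if_neg (fun h => hn (h1.1 h)), if_neg hn]

theorem F_add_per (D : ℤ) (n : ℕ) : F D (n + per D) = F D n := by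
  rw [← F_mod D (n + per D), Nat.add_mod_right, F_mod]

theorem sum_per (D : ℤ) (hD : ¬ IsSquare D) : ∑ n ∈ range (per D), F D n = 0 := by
  obtain ⟨b, hb, hJ⟩ := Pool.Agent.H12.exists_b D hD
  have hD0 : D ≠ 0 := by rintro rfl; exact hD ⟨0, rfl⟩
  have hq : 0 < per D := by unfold per; have := Int.natAbs_pos.2 hD0; omega
  have hb0 : b ≠ 0 := by rintro rfl; simp at hb
  have hcop : Nat.Coprime b (per D) := by
    have h1 : D.gcd b = 1 := by
      by_contra hc
      have := (jacobiSym.eq_zero_iff (a := D) (b := b)).2 ⟨hb0, hc⟩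
      rw [hJ] at this
      norm_num at this
    unfold per
    apply Nat.Coprime.mul_right
    · have : Nat.Coprime b 2 := (Nat.coprime_two_right).2 hb
      have h4 : (4 : ℕ) = 2 ^ 2 := by norm_num
      rw [h4]
      exact Nat.Coprime.pow_right 2 this
    · have h2 : Nat.gcd D.natAbs b = 1 := by
        rw [Int.gcd_eq_natAbs] at h1
        simpa using h1
      exact (Nat.coprime_comm).1 h2
  have hFb : F D b = -1 := by
    unfold F; rw [if_pos hb, hJ]; simp
  -- multiplication by b permutes the residues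
  have hperm : ∑ n ∈ range (per D), F D (b * n % per D) = ∑ n ∈ range (per D), F D n := by
    apply Finset.sum_bij (fun n _ => b * n % per D)
    · intro n _
      exact mem_range.2 (Nat.mod_lt _ hq)
    · intro n hn m hm h
      have h1 : b * n ≡ b * m [MOD per D] := h
      have h2 := Nat.ModEq.cancel_left_of_coprime (by rwa [Nat.coprime_comm] at hcop) h1
      have h3 : n % per D = m % per D := h2
      rwa [Nat.mod_eq_of_lt (mem_range.1 hn), Nat.mod_eq_of_lt (mem_range.1 hm)] at h3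
    · intro m hm
      obtain ⟨c, hc⟩ := Nat.exists_mul_mod_eq_one_of_coprime hcop (by
        unfold per; have := Int.natAbs_pos.2 hD0; omega)
      refine ⟨c * m % per D, mem_range.2 (Nat.mod_lt _ hq), ?_⟩
      rw [Nat.mul_mod_mod, ← mul_assoc, Nat.mul_mod, hc.2, one_mul, Nat.mod_mod,
        Nat.mod_eq_of_lt (mem_range.1 hm)]
    · intro n _
      rfl
  have h2 : ∀ n, F D (b * n % per D) = - F D n := by
    intro n
    rw [F_mod, F_mul, hFb]; ring
  rw [Finset.sum_congr rfl (fun n _ => h2 n), sum_neg_distrib] at hperm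
  linarith

theorem sum_range_mul (D : ℤ) (hD : ¬ IsSquare D) (k r : ℕ) :
    ∑ n ∈ range (per D * k + r), F D n = ∑ n ∈ range r, F D n := by
  induction k with
  | zero => simp
  | succ k ih =>
    have e : per D * (k + 1) + r = (per D * k + r) + per D := by ring
    have h1 : ∀ m, ∑ n ∈ range (m + per D), F D n = ∑ n ∈ range m, F D n := by
      intro m
      rw [add_comm, sum_range_add, sum_per D hD, zero_add]
      apply sum_congr rfl
      intro n _
      rw [add_comm, F_add_per]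
    rw [e, h1, ih]

theorem F_sum_range (D : ℤ) (hD : ¬ IsSquare D) (N : ℕ) :
    |∑ n ∈ range N, F D n| ≤ per D := by
  have hD0 : D ≠ 0 := by rintro rfl; exact hD ⟨0, rfl⟩
  have hq : 0 < per D := by unfold per; have := Int.natAbs_pos.2 hD0; omega
  rw [← Nat.div_add_mod N (per D), sum_range_mul D hD]
  calc |∑ n ∈ range (N % per D), F D n| ≤ ∑ n ∈ range (N % per D), |F D n| :=
        abs_sum_le_sum_abs _ _
    _ ≤ ∑ n ∈ range (N % per D), 1 := sum_le_sum fun n _ => abs_F_le D n
    _ ≤ per D := by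
        rw [sum_const, card_range, nsmul_eq_mul, mul_one]
        exact_mod_cast (Nat.mod_lt N hq).le

theorem F_zero (D : ℤ) : F D 0 = 0 := by unfold F; simp

theorem F_sum_trivial (D : ℤ) (hD : ¬ IsSquare D) (N : ℕ) :
    |∑ n ∈ Icc 1 N, F D n| ≤ 4 * D.natAbs := by
  have e : ∑ n ∈ Icc 1 N, F D n = ∑ n ∈ range (N + 1), F D n := by
    rw [Finset.sum_range_succ', F_zero, add_zero]
    rw [Finset.range_eq_Ico, Finset.sum_Ico_add' (F D) 0 N 1]
    rfl
  rw [e]
  have := F_sum_range D hD (N + 1)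
  unfold per at this
  push_cast at this
  exact this

theorem F_sum_Ioc (D : ℤ) (hD : ¬ IsSquare D) (y x : ℕ) :
    |∑ n ∈ Ioc y x, F D n| ≤ 8 * D.natAbs := by
  rcases le_total x y with h | h
  · rw [Finset.Ioc_eq_empty (by omega), sum_empty, abs_zero]; positivity
  · have e : ∑ n ∈ Icc 1 x, F D n = ∑ n ∈ Icc 1 y, F D n + ∑ n ∈ Ioc y x, F D n := by
      rw [← Finset.sum_union]
      · congr 1
        ext n; simp only [mem_union, mem_Icc, mem_Ioc]; omega
      · rw [Finset.disjoint_left]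
        intro n hn hn'
        simp only [mem_Icc, mem_Ioc] at hn hn'
        omega
    have h1 := F_sum_trivial D hD x
    have h2 := F_sum_trivial D hD y
    have e2 : ∑ n ∈ Ioc y x, F D n = ∑ n ∈ Icc 1 x, F D n - ∑ n ∈ Icc 1 y, F D n := by
      rw [e]; ring
    rw [e2]
    calc _ ≤ |∑ n ∈ Icc 1 x, F D n| + |∑ n ∈ Icc 1 y, F D n| := abs_sub _ _
      _ ≤ _ := by linarith

/-- the same for any interval, divided by `n` -/
theorem F_sum_div (D : ℤ) (hD : ¬ IsSquare D) (y x : ℕ) (hy : 1 ≤ y) :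
    |∑ n ∈ Ioc y x, F D n / n| ≤ 8 * D.natAbs / y := by
  set q : ℝ := 8 * (D.natAbs : ℝ) with hq
  have hq0 : 0 ≤ q := by positivity
  have hy0 : (0 : ℝ) < y := by exact_mod_cast hy
  rcases le_total x y with h | h
  · rw [Finset.Ioc_eq_empty (by omega), sum_empty, abs_zero]; positivity
  · have key : ∀ k : ℕ, |∑ n ∈ Ioc y (y + k), F D n / n -
        (∑ n ∈ Ioc y (y + k), F D n) / ((y : ℝ) + k + 1)| ≤
        q * (1 / ((y : ℝ) + 1) - 1 / ((y : ℝ) + k + 1)) := by
      intro k
      induction k with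
      | zero => simp
      | succ k ih =>
        have e1 : ∀ f : ℕ → ℝ, ∑ n ∈ Ioc y (y + (k + 1)), f n =
            ∑ n ∈ Ioc y (y + k), f n + f (y + k + 1) := by
          intro f
          rw [← add_assoc, Finset.sum_Ioc_succ_top (by omega)]
        have hA := F_sum_Ioc D hD y (y + (k + 1))
        rw [e1 (fun n => F D n / n)]
        set A := ∑ n ∈ Ioc y (y + k), F D n with hAdef
        set A' := ∑ n ∈ Ioc y (y + (k + 1)), F D n with hA'
        have e2 : A' = A + F D (y + k + 1) := e1 _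
        have hp1 : (0 : ℝ) < (y : ℝ) + k + 1 := by positivity
        have hp2 : (0 : ℝ) < (y : ℝ) + ((k + 1 : ℕ) : ℝ) + 1 := by positivity
        have e3 : ∑ n ∈ Ioc y (y + k), F D n / n + F D (y + k + 1) / ((y + k + 1 : ℕ) : ℝ) -
            A' / ((y : ℝ) + ((k + 1 : ℕ) : ℝ) + 1) =
            (∑ n ∈ Ioc y (y + k), F D n / n - A / ((y : ℝ) + k + 1)) +
            A' * (1 / ((y : ℝ) + k + 1) - 1 / ((y : ℝ) + ((k + 1 : ℕ) : ℝ) + 1)) := by
          rw [e2]
          push_cast
          field_simp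
          ring
        rw [e3]
        have hdec : 0 ≤ 1 / ((y : ℝ) + k + 1) - 1 / ((y : ℝ) + ((k + 1 : ℕ) : ℝ) + 1) := by
          rw [sub_nonneg]
          apply one_div_le_one_div_of_le hp1
          push_cast; linarith
        calc _ ≤ |∑ n ∈ Ioc y (y + k), F D n / n - A / ((y : ℝ) + k + 1)| +
            |A' * (1 / ((y : ℝ) + k + 1) - 1 / ((y : ℝ) + ((k + 1 : ℕ) : ℝ) + 1))| := abs_add_le _ _
          _ ≤ q * (1 / ((y : ℝ) + 1) - 1 / ((y : ℝ) + k + 1)) +
            q * (1 / ((y : ℝ) + k + 1) - 1 / ((y : ℝ) + ((k + 1 : ℕ) : ℝ) + 1)) := by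
              gcongr
              rw [abs_mul, abs_of_nonneg hdec]
              gcongr
          _ = _ := by ring
    obtain ⟨k, rfl⟩ : ∃ k, x = y + k := ⟨x - y, by omega⟩
    have h1 := key k
    have h2 := F_sum_Ioc D hD y (y + k)
    have hp1 : (0 : ℝ) < (y : ℝ) + k + 1 := by positivity
    have h3 : |(∑ n ∈ Ioc y (y + k), F D n) / ((y : ℝ) + k + 1)| ≤ q / ((y : ℝ) + k + 1) := by
      rw [abs_div, abs_of_pos hp1]
      gcongr
    have h4 : |∑ n ∈ Ioc y (y + k), F D n / n| ≤ q * (1 / ((y : ℝ) + 1)) := by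
      have e : ∑ n ∈ Ioc y (y + k), F D n / n = (∑ n ∈ Ioc y (y + k), F D n / n -
        (∑ n ∈ Ioc y (y + k), F D n) / ((y : ℝ) + k + 1)) +
        (∑ n ∈ Ioc y (y + k), F D n) / ((y : ℝ) + k + 1) := by ring
      rw [e]
      calc _ ≤ _ := abs_add_le _ _
        _ ≤ q * (1 / ((y : ℝ) + 1) - 1 / ((y : ℝ) + k + 1)) + q / ((y : ℝ) + k + 1) :=
            add_le_add h1 h3
        _ = _ := by ring
    refine h4.trans ?_
    rw [mul_one_div]
    gcongr
    linarith

end Pool.Agent.H66.Gol
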