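import Pool.Agent.H66.Gol.FSum

/-! # Variance of the small primes (helper66, module M5 of helper95's Golomb theorem) -/

namespace Pool.Agent.H66.Gol

open Finset Pool.Agent.H95.Gol NumberTheorySymbols

/-- the Jacobi symbol modulo a product of two distinct odd primes sums to zero -/
theorem sum_jacobi_zero {l l' : ℕ} (hl : l.Prime) (hl' : l'.Prime) (h2 : l ≠ 2) (h2' : l' ≠ 2)
    (hne : l ≠ l') : ∑ a ∈ range (l * l'), ((J((a : ℤ) | l * l') : ℤ) : ℝ) = 0 := by
  have hfl : Fact l.Prime := ⟨hl⟩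
  have hfl' : Fact l'.Prime := ⟨hl'⟩
  have hn : 1 < l * l' := by nlinarith [hl.two_le, hl'.two_le]
  -- a quadratic nonresidue modulo l, congruent to one modulo l'
  obtain ⟨a, ha⟩ := FiniteField.exists_nonsquare (F := ZMod l) (by rwa [ZMod.ringChar_zmod_n])
  have hcop : Nat.Coprime l l' := (Nat.coprime_primes hl hl').2 hne
  obtain ⟨b, hb1, hb2⟩ := Nat.chineseRemainder hcop a.val 1
  have hJl : J((b : ℤ) | l) = -1 := by
    rw [← jacobiSym.legendreSym.to_jacobiSym, legendreSym.eq_neg_one_iff]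
    have h1 : ((b : ℤ) : ZMod l) = a := by
      have := (ZMod.natCast_eq_natCast_iff b a.val l).2 hb1
      rw [ZMod.natCast_val, ZMod.cast_id] at this
      simpa using this
    rwa [h1]
  have hJl' : J((b : ℤ) | l') = 1 := by
    rw [jacobiSym.mod_left]
    have h1 : (b : ℤ) % l' = 1 % l' := by
      have := hb2
      unfold Nat.ModEq at this
      exact_mod_cast this
    rw [h1, ← jacobiSym.mod_left, jacobiSym.one_left]
  have hJ : J((b : ℤ) | l * l') = -1 := by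
    rw [jacobiSym.mul_right, hJl, hJl']; norm_num
  have hcopb : Nat.Coprime b (l * l') := by
    have h0 : l * l' ≠ 0 := by omega
    by_contra hc
    have : J((b : ℤ) | l * l') = 0 := (jacobiSym.eq_zero_iff).2 ⟨h0, by
      rw [Int.gcd_natCast_natCast]; exact hc⟩
    rw [hJ] at this
    norm_num at this
  have hmod : ∀ x : ℕ, J(((x % (l * l') : ℕ) : ℤ) | l * l') = J((x : ℤ) | l * l') := by
    intro x
    rw [jacobiSym.mod_left (x : ℤ) (l * l')]
    push_cast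
    rfl
  have hperm : ∑ n ∈ range (l * l'), ((J(((b * n % (l * l') : ℕ) : ℤ) | l * l') : ℤ) : ℝ) =
      ∑ n ∈ range (l * l'), ((J((n : ℤ) | l * l') : ℤ) : ℝ) := by
    apply Finset.sum_bij (fun n _ => b * n % (l * l'))
    · intro n _
      exact mem_range.2 (Nat.mod_lt _ (by omega))
    · intro n hn' m hm h
      have h1 : b * n ≡ b * m [MOD (l * l')] := h
      have h2 := Nat.ModEq.cancel_left_of_coprime (by rwa [Nat.coprime_comm] at hcopb) h1
      have h3 : n % (l * l') = m % (l * l') := h2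
      rwa [Nat.mod_eq_of_lt (mem_range.1 hn'), Nat.mod_eq_of_lt (mem_range.1 hm)] at h3
    · intro m hm
      obtain ⟨c, hc⟩ := Nat.exists_mul_mod_eq_one_of_coprime hcopb hn
      refine ⟨c * m % (l * l'), mem_range.2 (Nat.mod_lt _ (by omega)), ?_⟩
      rw [Nat.mul_mod_mod, ← mul_assoc, Nat.mul_mod, hc.2, one_mul, Nat.mod_mod,
        Nat.mod_eq_of_lt (mem_range.1 hm)]
    · intro n _
      rfl
  have h2 : ∀ n : ℕ, ((J(((b * n % (l * l') : ℕ) : ℤ) | l * l') : ℤ) : ℝ) =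
      -((J((n : ℤ) | l * l') : ℤ) : ℝ) := by
    intro n
    rw [hmod, Nat.cast_mul, jacobiSym.mul_left, hJ]
    push_cast; ring
  rw [Finset.sum_congr rfl (fun n _ => h2 n), sum_neg_distrib] at hperm
  linarith

theorem abs_jacobi_le (a : ℤ) (n : ℕ) : |((J(a | n) : ℤ) : ℝ)| ≤ 1 := by
  rcases jacobiSym.trichotomy a n with h | h | h <;> rw [h] <;> simp

/-- partial sums of a periodic function with values in `[-1,1]` and mean zero -/
theorem periodic_sum_le {f : ℕ → ℝ} {n : ℕ} (hn : 0 < n) (hper : ∀ a, f (a + n) = f a)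
    (hf : ∀ a, |f a| ≤ 1) (h0 : ∑ a ∈ range n, f a = 0) (N : ℕ) :
    2 * |∑ a ∈ range N, f a| ≤ n := by
  have h1 : ∀ k r, ∑ a ∈ range (n * k + r), f a = ∑ a ∈ range r, f a := by
    intro k r
    induction k with
    | zero => simp
    | succ k ih =>
      have e : n * (k + 1) + r = (n * k + r) + n := by ring
      have h1 : ∀ m, ∑ a ∈ range (m + n), f a = ∑ a ∈ range m, f a := by
        intro m
        rw [add_comm, sum_range_add, h0, zero_add]
        apply sum_congr rfl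
        intro a _
        rw [add_comm, hper]
      rw [e, h1, ih]
  rw [← Nat.div_add_mod N n, h1]
  set r := N % n with hr
  have hrn : r ≤ n := (Nat.mod_lt N hn).le
  have ha : |∑ a ∈ range r, f a| ≤ r := by
    calc _ ≤ ∑ a ∈ range r, |f a| := abs_sum_le_sum_abs _ _
      _ ≤ ∑ a ∈ range r, 1 := sum_le_sum fun a _ => hf a
      _ = r := by simp
  have hb : |∑ a ∈ range r, f a| ≤ n - r := by
    have e : ∑ a ∈ range r, f a = - ∑ a ∈ Ico r n, f a := by
      have := Finset.sum_range_add_sum_Ico f hrn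
      linarith
    rw [e, abs_neg]
    calc _ ≤ ∑ a ∈ Ico r n, |f a| := abs_sum_le_sum_abs _ _
      _ ≤ ∑ a ∈ Ico r n, 1 := sum_le_sum fun a _ => hf a
      _ = n - r := by simp [Nat.cast_sub hrn]
  linarith

theorem sum_Ioc_jacobi {l l' : ℕ} (hl : l.Prime) (hl' : l'.Prime) (h2 : l ≠ 2) (h2' : l' ≠ 2)
    (hne : l ≠ l') (P : ℕ) :
    |∑ a ∈ Ioc P (2 * P), ((J((a : ℤ) | l * l') : ℤ) : ℝ)| ≤ l * l' := by
  have hn : 0 < l * l' := Nat.mul_pos hl.pos hl'.pos
  have hper : ∀ a : ℕ, ((J(((a + l * l' : ℕ) : ℤ) | l * l') : ℤ) : ℝ) = ((J((a : ℤ) | l * l') : ℤ) : ℝ) := by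
    intro a
    congr 1
    rw [jacobiSym.mod_left, jacobiSym.mod_left (a : ℤ)]
    congr 1
    push_cast
    exact Int.add_emod_right _ _
  have key := periodic_sum_le (f := fun a : ℕ => ((J((a : ℤ) | l * l') : ℤ) : ℝ)) hn hper
    (fun a => abs_jacobi_le _ _) (sum_jacobi_zero hl hl' h2 h2' hne)
  have e : ∑ a ∈ Ioc P (2 * P), ((J((a : ℤ) | l * l') : ℤ) : ℝ) =
      ∑ a ∈ range (2 * P + 1), ((J((a : ℤ) | l * l') : ℤ) : ℝ) -
      ∑ a ∈ range (P + 1), ((J((a : ℤ) | l * l') : ℤ) : ℝ) := by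
    rw [← Finset.sum_Ico_eq_sub _ (by omega)]
    apply Finset.sum_congr _ (fun _ _ => rfl)
    ext a; simp only [mem_Ioc, mem_Ico]; omega
  rw [e]
  have h3 := key (2 * P + 1)
  have h4 := key (P + 1)
  push_cast at h3 h4
  refine (abs_sub _ _).trans ?_
  linarith

/-- M5 (`Low.lean`): variance over `a`, small primes -/
theorem low (s : ℤ) (hs : s = 1 ∨ s = -1) (P k : ℕ) :
    ∑ a ∈ Ioc P (2 * P), (Dk (s * a) k)^2 ≤ P / bb k + (bb (k+1) : ℝ)^2 := by
  have hodd : ∀ l ∈ PB k, l.Prime ∧ l ≠ 2 ∧ Odd l ∧ bb k < l ∧ l ≤ bb (k + 1) := by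
    intro l hl
    rw [mem_PB] at hl
    have h2 := two_le_bb k
    have hl2 : l ≠ 2 := by omega
    exact ⟨hl.2, hl2, hl.2.odd_of_ne_two hl2, hl.1.1, hl.1.2⟩
  have hexp : ∀ a : ℕ, (Dk (s * a) k)^2 =
      ∑ l ∈ PB k, ∑ l' ∈ PB k, F (s * a) (l * l') / (l * l' : ℝ) := by
    intro a
    unfold Dk
    rw [sq, Finset.sum_mul_sum]
    apply Finset.sum_congr rfl; intro l _
    apply Finset.sum_congr rfl; intro l' _
    rw [F_mul]; ring
  rw [Finset.sum_congr rfl (fun a _ => hexp a), Finset.sum_comm]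
  have hin : ∀ l ∈ PB k, ∑ a ∈ Ioc P (2 * P), ∑ l' ∈ PB k, F (s * a) (l * l') / (l * l' : ℝ) ≤
      P * ((l : ℝ) ^ 2)⁻¹ + (PB k).card := by
    intro l hl
    obtain ⟨hlp, hl2, hlo, _, _⟩ := hodd l hl
    have hl0 : (0 : ℝ) < l := by exact_mod_cast hlp.pos
    rw [Finset.sum_comm]
    have hterm : ∀ l' ∈ PB k, ∑ a ∈ Ioc P (2 * P), F (s * a) (l * l') / (l * l' : ℝ) ≤
        (if l' = l then P * ((l : ℝ) ^ 2)⁻¹ else 0) + 1 := by
      intro l' hl'
      obtain ⟨hlp', hl2', hlo', _, _⟩ := hodd l' hl'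
      have hl0' : (0 : ℝ) < l' := by exact_mod_cast hlp'.pos
      rw [← Finset.sum_div]
      by_cases h : l' = l
      · rw [if_pos h, h]
        have h1 : ∑ a ∈ Ioc P (2 * P), F (s * a) (l * l) ≤ P := by
          calc _ ≤ ∑ a ∈ Ioc P (2 * P), (1 : ℝ) :=
                sum_le_sum fun a _ => (abs_le.1 (abs_F_le _ _)).2
            _ = P := by
              rw [sum_const, Nat.card_Ioc, nsmul_eq_mul, mul_one]
              congr 1; omega
        have h2 : (∑ a ∈ Ioc P (2 * P), F (s * a) (l * l)) / (l * l : ℝ) ≤ P * ((l : ℝ) ^ 2)⁻¹ := by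
          rw [div_eq_mul_inv, sq (l : ℝ)]
          gcongr
        linarith
      · rw [if_neg h, zero_add]
        have h1 : ∀ a : ℕ, F (s * a) (l * l') = ((J(s | l * l') : ℤ) : ℝ) * ((J((a : ℤ) | l * l') : ℤ) : ℝ) := by
          intro a
          unfold F
          rw [if_pos (Nat.odd_mul.2 ⟨hlo, hlo'⟩), jacobiSym.mul_left]
          push_cast; rfl
        rw [Finset.sum_congr rfl (fun a _ => h1 a), ← Finset.mul_sum, div_le_one (by positivity)]
        have h2 := sum_Ioc_jacobi hlp hlp' hl2 hl2' (Ne.symm h) P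
        calc _ ≤ |((J(s | l * l') : ℤ) : ℝ) * ∑ a ∈ Ioc P (2 * P), ((J((a : ℤ) | l * l') : ℤ) : ℝ)| :=
              le_abs_self _
          _ = |((J(s | l * l') : ℤ) : ℝ)| * |∑ a ∈ Ioc P (2 * P), ((J((a : ℤ) | l * l') : ℤ) : ℝ)| :=
              abs_mul _ _
          _ ≤ 1 * (l * l') := by
              gcongr
              exact abs_jacobi_le _ _
          _ = _ := one_mul _
    calc _ ≤ ∑ l' ∈ PB k, ((if l' = l then P * ((l : ℝ) ^ 2)⁻¹ else 0) + 1) := sum_le_sum hterm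
      _ = P * ((l : ℝ) ^ 2)⁻¹ + (PB k).card := by
        rw [sum_add_distrib, sum_ite_eq' (PB k) l, if_pos hl]
        simp
  have hcard : ((PB k).card : ℝ) ≤ bb (k + 1) := by
    have : (PB k).card ≤ bb (k + 1) := by
      unfold PB
      calc _ ≤ (Ioc (bb k) (bb (k + 1))).card := card_filter_le _ _
        _ = bb (k + 1) - bb k := Nat.card_Ioc _ _
        _ ≤ _ := Nat.sub_le _ _
    exact_mod_cast this
  have hsq : ∑ l ∈ PB k, ((l : ℝ) ^ 2)⁻¹ ≤ (bb k : ℝ)⁻¹ := by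
    calc _ ≤ ∑ l ∈ Ioc (bb k) (bb (k + 1)), ((l : ℝ) ^ 2)⁻¹ :=
          sum_le_sum_of_subset_of_nonneg (filter_subset _ _) (fun _ _ _ => by positivity)
      _ ≤ (bb k : ℝ)⁻¹ - (bb (k + 1) : ℝ)⁻¹ :=
          sum_Ioc_inv_sq_le_sub (bb_pos k).ne' (bb_mono (Nat.le_succ k))
      _ ≤ _ := by
        have : (0 : ℝ) ≤ (bb (k + 1) : ℝ)⁻¹ := by positivity
        linarith
  calc _ = ∑ l ∈ PB k, ∑ a ∈ Ioc P (2 * P), ∑ l' ∈ PB k, F (s * a) (l * l') / (l * l' : ℝ) := rfl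
    _ ≤ ∑ l ∈ PB k, (P * ((l : ℝ) ^ 2)⁻¹ + (PB k).card) := sum_le_sum hin
    _ = P * ∑ l ∈ PB k, ((l : ℝ) ^ 2)⁻¹ + (PB k).card * (PB k).card := by
        rw [sum_add_distrib, ← mul_sum, sum_const, nsmul_eq_mul]
    _ ≤ P * (bb k : ℝ)⁻¹ + bb (k + 1) * bb (k + 1) := by gcongr
    _ = _ := by rw [← div_eq_mul_inv, sq]

end Pool.Agent.H66.Gol
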