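import Mathlib

/-! # Paley difference sets (helper66, module M15 of helper95's Golomb theorem) -/

namespace Pool.Agent.H66.Gol

open Finset

theorem paley (w : ℕ) (hw : 0 < w) (hp : (4 * w - 1).Prime) :
    ∃ D : Finset (ZMod (4 * w - 1)), D.card = 2 * w - 1 ∧
    ∀ d : ZMod (4 * w - 1), d ≠ 0 →
      ((D ×ˢ D).filter (fun t => t.1 - t.2 = d)).card = w - 1 := by
  classical
  set p := 4 * w - 1 with hpdef
  have hfact : Fact p.Prime := ⟨hp⟩
  have hp2 : ringChar (ZMod p) ≠ 2 := by
    rw [ZMod.ringChar_zmod_n]; omega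
  have hχneg : quadraticChar (ZMod p) (-1) = -1 := by
    rw [quadraticChar_neg_one hp2, ZMod.card, ZMod.χ₄_nat_three_mod_four (by omega)]
  set D : Finset (ZMod p) := univ.filter fun x => quadraticChar (ZMod p) x = 1 with hD
  have hmem : ∀ x, x ∈ D ↔ quadraticChar (ZMod p) x = 1 := by intro x; simp [hD]
  have h0 : (0 : ZMod p) ∉ D := by
    rw [hmem, quadraticChar_zero]; norm_num
  have hmul : ∀ c ∈ D, ∀ x, c * x ∈ D ↔ x ∈ D := by
    intro c hc x
    rw [hmem, hmem, map_mul, (hmem c).1 hc, one_mul]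
  have hneg : ∀ x, x ≠ 0 → (x ∈ D ∨ -x ∈ D) ∧ ¬ (x ∈ D ∧ -x ∈ D) := by
    intro x hx
    have e : quadraticChar (ZMod p) (-x) = - quadraticChar (ZMod p) x := by
      rw [neg_eq_neg_one_mul, map_mul, hχneg]; ring
    rw [hmem, hmem, e]
    rcases quadraticChar_dichotomy hx with h | h <;> rw [h] <;> norm_num
  -- cardinality
  have hcard : D.card = 2 * w - 1 := by
    have h1 : (univ : Finset (ZMod p)) = (D ∪ D.image (fun x => -x)) ∪ {0} := by
      ext x
      simp only [mem_univ, mem_union, mem_image, mem_singleton, true_iff]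
      by_cases hx : x = 0
      · exact Or.inr hx
      · left
        rcases (hneg x hx).1 with h | h
        · exact Or.inl h
        · exact Or.inr ⟨-x, h, neg_neg x⟩
    have h2 : Disjoint D (D.image (fun x => -x)) := by
      rw [Finset.disjoint_left]
      intro x hx hx'
      rw [mem_image] at hx'
      obtain ⟨y, hy, rfl⟩ := hx'
      have hy0 : y ≠ 0 := fun h => h0 (h ▸ hy)
      exact (hneg y hy0).2 ⟨hy, hx⟩
    have h3 : Disjoint (D ∪ D.image (fun x => -x)) {0} := by
      rw [Finset.disjoint_singleton_right, mem_union, mem_image]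
      rintro (h | ⟨y, hy, h⟩)
      · exact h0 h
      · rw [neg_eq_zero] at h
        exact h0 (h ▸ hy)
    have h4 := congrArg Finset.card h1
    rw [card_union_of_disjoint h3, card_union_of_disjoint h2,
      card_image_of_injective _ neg_injective, card_singleton, card_univ, ZMod.card] at h4
    omega
  refine ⟨D, hcard, ?_⟩
  set N : ZMod p → ℕ := fun d => ((D ×ˢ D).filter (fun t => t.1 - t.2 = d)).card with hN
  have hNmul : ∀ c ∈ D, ∀ d, N (c * d) = N d := by
    intro c hc d
    have hc0 : c ≠ 0 := fun h => h0 (h ▸ hc)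
    symm
    apply Finset.card_bij (fun t _ => (c * t.1, c * t.2))
    · intro t ht
      simp only [mem_filter, mem_product] at ht ⊢
      refine ⟨⟨(hmul c hc _).2 ht.1.1, (hmul c hc _).2 ht.1.2⟩, ?_⟩
      rw [← mul_sub, ht.2]
    · intro t _ t' _ h
      simp only [Prod.mk.injEq] at h
      exact Prod.ext (mul_left_cancel₀ hc0 h.1) (mul_left_cancel₀ hc0 h.2)
    · intro t ht
      simp only [mem_filter, mem_product] at ht
      refine ⟨(c⁻¹ * t.1, c⁻¹ * t.2), ?_, ?_⟩
      · simp only [mem_filter, mem_product]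
        refine ⟨⟨?_, ?_⟩, ?_⟩
        · rw [← hmul c hc, mul_inv_cancel_left₀ hc0]; exact ht.1.1
        · rw [← hmul c hc, mul_inv_cancel_left₀ hc0]; exact ht.1.2
        · rw [← mul_sub, ht.2, inv_mul_cancel_left₀ hc0]
      · simp [mul_inv_cancel_left₀ hc0]
  have hNneg : ∀ d, N (-d) = N d := by
    intro d
    symm
    apply Finset.card_bij (fun t _ => (t.2, t.1))
    · intro t ht
      simp only [mem_filter, mem_product] at ht ⊢
      exact ⟨⟨ht.1.2, ht.1.1⟩, by rw [← ht.2]; ring⟩
    · intro t _ t' _ h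
      simp only [Prod.mk.injEq] at h
      exact Prod.ext h.2 h.1
    · intro t ht
      simp only [mem_filter, mem_product] at ht
      refine ⟨(t.2, t.1), ?_, rfl⟩
      simp only [mem_filter, mem_product]
      exact ⟨⟨ht.1.2, ht.1.1⟩, by rw [← neg_neg d, ← ht.2]; ring⟩
  have hN1 : ∀ d, d ≠ 0 → N d = N 1 := by
    intro d hd
    rcases (hneg d hd).1 with h | h
    · have := hNmul d h 1
      rwa [mul_one] at this
    · have := hNmul (-d) h 1
      rw [mul_one, hNneg] at this
      exact this
  -- count all pairs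
  have hsum : ∑ d : ZMod p, N d = D.card * D.card := by
    rw [← card_product]
    exact (Finset.card_eq_sum_card_fiberwise (f := fun t : ZMod p × ZMod p => t.1 - t.2)
      (s := D ×ˢ D) (t := univ) (fun _ _ => by simp)).symm
  have hN0 : N 0 = D.card := by
    simp only [hN]
    symm
    apply Finset.card_bij (fun x _ => (x, x))
    · intro x hx; simp [hx]
    · intro x _ y _ h; exact congrArg Prod.fst h
    · intro t ht
      simp only [mem_filter, mem_product] at ht
      exact ⟨t.1, ht.1.1, Prod.ext rfl (sub_eq_zero.1 ht.2)⟩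
  have hsplit : ∑ d : ZMod p, N d = N 0 + (p - 1) * N 1 := by
    rw [← Finset.add_sum_erase univ N (mem_univ 0)]
    congr 1
    rw [Finset.sum_congr rfl (fun d hd => hN1 d (Finset.ne_of_mem_erase hd)), sum_const,
      card_erase_of_mem (mem_univ _), card_univ, ZMod.card, smul_eq_mul]
  intro d hd
  change N d = w - 1
  rw [hN1 d hd]
  rw [hsum, hN0, hcard] at hsplit
  obtain ⟨v, rfl⟩ : ∃ v, w = v + 1 := ⟨w - 1, by omega⟩
  have e1 : 2 * (v + 1) - 1 = 2 * v + 1 := by omega
  have e2 : p - 1 = 2 * (2 * v + 1) := by omega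
  rw [e1, e2] at hsplit
  have e3 : (2 * v + 1) * (2 * v) = (2 * v + 1) * (2 * N 1) := by nlinarith
  have e4 := Nat.eq_of_mul_eq_mul_left (by omega) e3
  omega

end Pool.Agent.H66.Gol
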